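import Mathlib

set_option autoImplicit false

namespace Pool.Agent.Helper479Cactus

open SimpleGraph

variable {ι : Type} [Fintype ι] (H : SimpleGraph ι)

/-- The first vertex of a path of maximum length inside `I` has only two possible neighbors
in `I`, if `H` has no cycle of length at least four. -/
theorem nbr_of_max (hH : ∀ (i : ι) (p : H.Walk i i), p.IsCycle → p.length ≤ 3) (I : Finset ι)
    (n : ℕ) (hn : ∀ (u z : ι) (p : H.Walk u z), p.IsPath → (∀ x ∈ p.support, x ∈ I) → p.length ≤ n)
    (u z : ι) (p : H.Walk u z) (hp : p.IsPath) (hpI : ∀ x ∈ p.support, x ∈ I) (hl : p.length = n)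
    (x : ι) (hx : x ∈ I) (hux : H.Adj u x) : x = p.getVert 1 ∨ x = p.getVert 2 := by
  classical
  have hxs : x ∈ p.support := by
    by_contra hns
    have h1 : (Walk.cons hux.symm p).IsPath := by
      rw [Walk.cons_isPath_iff]
      exact ⟨hp, hns⟩
    have h2 := hn _ _ _ h1 (by
      intro y hy
      rw [Walk.support_cons] at hy
      rcases List.mem_cons.mp hy with rfl | hy
      · exact hx
      · exact hpI y hy)
    rw [Walk.length_cons] at h2
    omega
  have htp : (p.takeUntil x hxs).IsPath := hp.takeUntil hxs
  have hget : x = p.getVert (p.takeUntil x hxs).length := by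
    rw [Walk.getVert_length_takeUntil hxs]
  have hle : (p.takeUntil x hxs).length ≤ 2 := by
    by_contra hgt
    push Not at hgt
    have hcyc : (Walk.cons hux.symm (p.takeUntil x hxs)).IsCycle := by
      rw [Walk.cons_isCycle_iff]
      refine ⟨htp, ?_⟩
      intro hmem
      -- the edge x u lies on the path from u to x only if the path has length one
      have h3 : (p.takeUntil x hxs).length ≤ 1 := by
        have hq : ∀ (q : H.Walk u x), q.IsPath → s(x, u) ∈ q.edges → q.length ≤ 1 := by
          intro q hq hmem
          cases q with
          | nil => simp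
          | cons h q' =>
            rename_i w
            rw [Walk.edges_cons] at hmem
            rw [Walk.cons_isPath_iff] at hq
            rcases List.mem_cons.mp hmem with h4 | h4
            · have hw : w = x := by
                have := Sym2.eq_iff.mp h4
                rcases this with ⟨h5, -⟩ | ⟨h5, -⟩
                · exact absurd h5.symm hux.ne
                · exact h5.symm
              subst hw
              have h8 : q'.length = 0 := Walk.nil_iff_length_eq.mp (Walk.isPath_iff_nil.mp hq.1)
              rw [Walk.length_cons]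
              omega
            · exact absurd (Walk.snd_mem_support_of_mem_edges q' h4) hq.2
        exact hq _ htp hmem
      omega
    have := hH _ _ hcyc
    rw [Walk.length_cons] at this
    omega
  interval_cases hlen : (p.takeUntil x hxs).length
  · exfalso
    rw [Walk.getVert_zero] at hget
    exact hux.ne hget.symm
  · left; exact hget
  · right; exact hget

/-- A graph without cycles of length at least four has, in every nonempty set, a vertex with at
most one neighbor or a triangle with two vertices of degree two. -/
theorem leaf_block (hH : ∀ (i : ι) (p : H.Walk i i), p.IsCycle → p.length ≤ 3) (I : Finset ι)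
    (hI : I.Nonempty) :
    ∃ w ∈ I, (∃ u, ∀ x ∈ I, H.Adj w x → x = u) ∨
      (∃ b ∈ I, ∃ v ∈ I, H.Adj w b ∧ H.Adj w v ∧ H.Adj b v ∧
        (∀ x ∈ I, H.Adj w x → x = b ∨ x = v) ∧ (∀ x ∈ I, H.Adj b x → x = w ∨ x = v)) := by
  classical
  -- a path of maximum length
  obtain ⟨n, ⟨u, z, p, hp, hpI, hl⟩, hmax⟩ : ∃ n, (∃ (u z : ι) (p : H.Walk u z), p.IsPath ∧
      (∀ x ∈ p.support, x ∈ I) ∧ p.length = n) ∧ ∀ (u z : ι) (p : H.Walk u z), p.IsPath →
      (∀ x ∈ p.support, x ∈ I) → p.length ≤ n := by
    let P : ℕ → Prop := fun n => ∃ (u z : ι) (p : H.Walk u z), p.IsPath ∧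
      (∀ x ∈ p.support, x ∈ I) ∧ p.length = n
    obtain ⟨i, hi⟩ := hI
    have h0 : P 0 := ⟨i, i, Walk.nil, by simp, by simpa using hi, by simp⟩
    have hb : ∀ m, P m → m ≤ Fintype.card ι := by
      rintro m ⟨u, z, p, hp, -, hl⟩
      have := hp.length_lt
      omega
    refine ⟨Nat.findGreatest P (Fintype.card ι), ?_, ?_⟩
    · exact Nat.findGreatest_spec (P := P) (Nat.zero_le _) h0
    · intro u z p hp hpI
      exact Nat.le_findGreatest (hb _ ⟨u, z, p, hp, hpI, rfl⟩) ⟨u, z, p, hp, hpI, rfl⟩
  refine ⟨u, hpI u p.start_mem_support, ?_⟩
  have hN := nbr_of_max H hH I n hmax u z p hp hpI hl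
  by_cases h2 : H.Adj u (p.getVert 2) ∧ p.getVert 2 ≠ p.getVert 1
  · -- the path has length at least two
    right
    cases p with
    | nil => exact absurd h2.1 (by simp [Walk.getVert])
    | cons h q =>
      rename_i w
      cases q with
      | nil =>
        exfalso
        simpa [Walk.getVert] using h2.2
      | cons h' q' =>
        rename_i y
        have e1 : (Walk.cons h (Walk.cons h' q')).getVert 1 = w := by simp [Walk.getVert]
        have e2 : (Walk.cons h (Walk.cons h' q')).getVert 2 = y := by simp [Walk.getVert]
        rw [e1, e2] at h2 hN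
        have huy : H.Adj u y := h2.1
        rw [Walk.cons_isPath_iff, Walk.cons_isPath_iff] at hp
        obtain ⟨⟨hq', hw⟩, hu⟩ := hp
        rw [Walk.support_cons] at hu
        have hu1 : u ≠ w := fun h3 => hu (List.mem_cons.mpr (Or.inl h3))
        have hu2 : u ∉ q'.support := fun h3 => hu (List.mem_cons.mpr (Or.inr h3))
        have hp' : (Walk.cons h.symm (Walk.cons huy q')).IsPath := by
          rw [Walk.cons_isPath_iff, Walk.cons_isPath_iff, Walk.support_cons]
          refine ⟨⟨hq', hu2⟩, ?_⟩
          intro h3
          rcases List.mem_cons.mp h3 with h3 | h3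
          · exact hu1 h3.symm
          · exact hw h3
        have hpI' : ∀ x ∈ (Walk.cons h.symm (Walk.cons huy q')).support, x ∈ I := by
          intro x hx
          apply hpI
          simp only [Walk.support_cons, List.mem_cons] at hx ⊢
          tauto
        have hl' : (Walk.cons h.symm (Walk.cons huy q')).length = n := by
          rw [← hl]; simp [Walk.length_cons]
        have hN' := nbr_of_max H hH I n hmax _ _ _ hp' hpI' hl'
        have e1' : (Walk.cons h.symm (Walk.cons huy q')).getVert 1 = u := by simp [Walk.getVert]
        have e2' : (Walk.cons h.symm (Walk.cons huy q')).getVert 2 = y := by simp [Walk.getVert]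
        rw [e1', e2'] at hN'
        refine ⟨w, hpI w (by simp), y, hpI y (by simp), h, huy, h', ?_, ?_⟩
        · intro x hx hux
          exact hN x hx hux
        · intro x hx hwx
          exact hN' x hx hwx
  · left
    refine ⟨p.getVert 1, ?_⟩
    intro x hx hux
    rcases hN x hx hux with h | h
    · exact h
    · by_contra hne
      apply h2
      rw [← h]
      exact ⟨hux, hne⟩

end Pool.Agent.Helper479Cactus
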