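import Mathlib
import Pool.Agent.Helper479_cactus.Leaf

set_option autoImplicit false

namespace Pool.Agent.Helper479Cactus

open SimpleGraph

section walks

variable {V : Type} (G : SimpleGraph V)

theorem union_conn {S T : Set V} (hS : (G.induce S).Connected) (hT : (G.induce T).Connected)
    (h : (S ∩ T).Nonempty) : (G.induce (S ∪ T)).Connected :=
  induce_union_connected hS.preconnected hT.preconnected h

theorem adj_union_conn {S T : Set V} {x y : V} (hx : x ∈ S) (hy : y ∈ T) (hxy : G.Adj x y)
    (hS : (G.induce S).Connected) (hT : (G.induce T).Connected) :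
    (G.induce (S ∪ T)).Connected := by
  have h1 : (G.induce (S ∪ {x, y})).Connected :=
    union_conn G hS (induce_pair_connected_of_adj hxy) ⟨x, hx, Or.inl rfl⟩
  have h2 : (G.induce ((S ∪ {x, y}) ∪ T)).Connected :=
    union_conn G h1 hT ⟨y, Or.inr (Or.inr rfl), hy⟩
  have h3 : (S ∪ {x, y}) ∪ T = S ∪ T := by
    ext z
    simp only [Set.mem_union, Set.mem_insert_iff, Set.mem_singleton_iff]
    constructor
    · rintro ((h | rfl | rfl) | h)
      · exact Or.inl h
      · exact Or.inl hx
      · exact Or.inr hy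
      · exact Or.inr h
    · rintro (h | h)
      · exact Or.inl (Or.inl h)
      · exact Or.inr h
  rw [h3] at h2
  exact h2

theorem singleton_conn (x : V) : (G.induce ({x} : Set V)).Connected := by
  have : Nonempty ({x} : Set V) := ⟨⟨x, rfl⟩⟩
  refine ⟨?_⟩
  rintro ⟨u, rfl⟩ ⟨v, rfl⟩
  exact Reachable.refl _

/-- The part of a walk before it first meets `R`. -/
theorem initial (R : Set V) : ∀ (x y : V) (p : G.Walk x y), y ∈ R → x ∉ R →
    ∃ (Z : Set V), x ∈ Z ∧ (G.induce Z).Connected ∧ (∀ z ∈ Z, z ∈ p.support ∧ z ∉ R) ∧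
      ∃ z ∈ Z, ∃ r ∈ R, r ∈ p.support ∧ G.Adj z r := by
  intro x y p
  induction p with
  | nil => intro h1 h2; exact absurd h1 h2
  | cons h p ih =>
    rename_i u v w
    intro hy hx
    by_cases hv : v ∈ R
    · refine ⟨{u}, rfl, singleton_conn G u, ?_, u, rfl, v, hv, ?_, h⟩
      · rintro z rfl
        exact ⟨by simp, hx⟩
      · simp
    · obtain ⟨Z, hZ1, hZ2, hZ3, z, hz, r, hr, hrs, hzr⟩ := ih hy hv
      refine ⟨{u} ∪ Z, Or.inl rfl, ?_, ?_, z, Or.inr hz, r, hr, ?_, hzr⟩
      · exact adj_union_conn G rfl hZ1 h (singleton_conn G u) hZ2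
      · rintro a (rfl | ha)
        · exact ⟨by simp, hx⟩
        · refine ⟨?_, (hZ3 a ha).2⟩
          rw [Walk.support_cons]
          exact List.mem_cons_of_mem _ (hZ3 a ha).1
      · rw [Walk.support_cons]
        exact List.mem_cons_of_mem _ hrs

/-- Cutting a path between two of its vertices. -/
theorem cut : ∀ (x y : V) (p : G.Walk x y), p.IsPath → ∀ a b, a ∈ p.support → b ∈ p.support →
    a ≠ b → ∃ X Y : Set V, x ∈ X ∧ y ∈ Y ∧ Disjoint X Y ∧ (∀ v, v ∈ p.support ↔ v ∈ X ∨ v ∈ Y) ∧
      (G.induce X).Connected ∧ (G.induce Y).Connected ∧ (∃ u ∈ X, ∃ v ∈ Y, G.Adj u v) ∧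
      ((a ∈ X ∧ b ∈ Y) ∨ (b ∈ X ∧ a ∈ Y)) := by
  intro x y p
  induction p with
  | nil =>
    intro _ a b ha hb hab
    simp at ha hb
    exact absurd (ha.trans hb.symm) hab
  | cons h p ih =>
    rename_i u v w
    intro hp a b ha hb hab
    rw [Walk.cons_isPath_iff] at hp
    rw [Walk.support_cons] at ha hb
    have hmain : ∀ a b, a = u → b ∈ p.support → ∃ X Y : Set V, u ∈ X ∧ w ∈ Y ∧ Disjoint X Y ∧
        (∀ z, z ∈ (Walk.cons h p).support ↔ z ∈ X ∨ z ∈ Y) ∧
        (G.induce X).Connected ∧ (G.induce Y).Connected ∧ (∃ u ∈ X, ∃ v ∈ Y, G.Adj u v) ∧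
        (a ∈ X ∧ b ∈ Y) := by
      intro a b ha hb
      refine ⟨{u}, {z | z ∈ p.support}, rfl, p.end_mem_support, ?_, ?_, singleton_conn G u,
        p.connected_induce_support, ⟨u, rfl, v, p.start_mem_support, h⟩, ha, hb⟩
      · rw [Set.disjoint_singleton_left]
        exact hp.2
      · intro z
        rw [Walk.support_cons, List.mem_cons]
        rfl
    rcases List.mem_cons.mp ha with ha' | ha' <;> rcases List.mem_cons.mp hb with hb' | hb'
    · exact absurd (ha'.trans hb'.symm) hab
    · obtain ⟨X, Y, h1, h2, h3, h4, h5, h6, h7, h8⟩ := hmain a b ha' hb'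
      exact ⟨X, Y, h1, h2, h3, h4, h5, h6, h7, Or.inl h8⟩
    · obtain ⟨X, Y, h1, h2, h3, h4, h5, h6, h7, h8⟩ := hmain b a hb' ha'
      exact ⟨X, Y, h1, h2, h3, h4, h5, h6, h7, Or.inr h8⟩
    · obtain ⟨X, Y, h1, h2, h3, h4, h5, h6, h7, h8⟩ := ih hp.1 a b ha' hb' hab
      refine ⟨{u} ∪ X, Y, Or.inl rfl, h2, ?_, ?_, ?_, h6, ?_, ?_⟩
      · rw [Set.disjoint_union_left]
        refine ⟨?_, h3⟩
        rw [Set.disjoint_singleton_left]
        intro hu
        exact hp.2 ((h4 u).mpr (Or.inr hu))
      · intro z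
        rw [Walk.support_cons, List.mem_cons, h4 z, Set.mem_union, Set.mem_singleton_iff]
        tauto
      · exact adj_union_conn G rfl h1 h (singleton_conn G u) h5
      · obtain ⟨s, hs, t, ht, hst⟩ := h7
        exact ⟨s, Or.inr hs, t, ht, hst⟩
      · rcases h8 with h8 | h8
        · exact Or.inl ⟨Or.inr h8.1, h8.2⟩
        · exact Or.inr ⟨Or.inr h8.1, h8.2⟩

/-- A shortest path between two sets inside `W`. -/
theorem short (A B W : Set V) (h : ∃ (x y : V) (p : G.Walk x y), x ∈ A ∧ y ∈ B ∧
    ∀ v ∈ p.support, v ∈ W) :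
    ∃ (x y : V) (p : G.Walk x y), x ∈ A ∧ y ∈ B ∧ (∀ v ∈ p.support, v ∈ W) ∧ p.IsPath ∧
      (∀ v ∈ p.support, v ∈ A → v = x) ∧ (∀ v ∈ p.support, v ∈ B → v = y) := by
  classical
  let P : ℕ → Prop := fun n => ∃ (x y : V) (p : G.Walk x y), x ∈ A ∧ y ∈ B ∧
    (∀ v ∈ p.support, v ∈ W) ∧ p.length = n
  have hP : ∃ n, P n := by
    obtain ⟨x, y, p, h1, h2, h3⟩ := h
    exact ⟨p.length, x, y, p, h1, h2, h3, rfl⟩
  obtain ⟨x, y, p, h1, h2, h3, h4⟩ := Nat.find_spec hP
  have hmin : ∀ (x y : V) (p : G.Walk x y), x ∈ A → y ∈ B → (∀ v ∈ p.support, v ∈ W) →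
      Nat.find hP ≤ p.length := by
    intro x y p h1 h2 h3
    exact Nat.find_min' hP ⟨x, y, p, h1, h2, h3, rfl⟩
  have hb3 : ∀ v ∈ p.bypass.support, v ∈ W := fun v hv => h3 v (p.support_bypass_subset hv)
  have hbl : p.bypass.length = Nat.find hP := by
    have e1 := hmin x y p.bypass h1 h2 hb3
    have e2 := p.length_bypass_le
    omega
  refine ⟨x, y, p.bypass, h1, h2, hb3, p.bypass_isPath, ?_, ?_⟩
  · intro v hv hvA
    have e1 := hmin v y (p.bypass.dropUntil v hv) hvA h2 (fun w hw => hb3 w
      (p.bypass.support_dropUntil_subset hv hw))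
    have e2 : (p.bypass.takeUntil v hv).length + (p.bypass.dropUntil v hv).length =
        p.bypass.length := by
      rw [← Walk.length_append, Walk.take_spec]
    have e3 : (p.bypass.takeUntil v hv).length = 0 := by omega
    exact (Walk.eq_of_length_eq_zero e3).symm
  · intro v hv hvB
    have e1 := hmin x v (p.bypass.takeUntil v hv) h1 hvB (fun w hw => hb3 w
      (p.bypass.support_takeUntil_subset hv hw))
    have e2 : (p.bypass.takeUntil v hv).length + (p.bypass.dropUntil v hv).length =
        p.bypass.length := by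
      rw [← Walk.length_append, Walk.take_spec]
    have e3 : (p.bypass.dropUntil v hv).length = 0 := by omega
    exact Walk.eq_of_length_eq_zero e3

end walks

variable {V ι : Type} [Fintype ι] [DecidableEq ι] (G : SimpleGraph V) (H : SimpleGraph ι)
  (c : V → ι) (t : ι → V)

theorem main (hH : ∀ (i : ι) (p : H.Walk i i), p.IsCycle → p.length ≤ 3)
    (hw : ∀ i j, H.Adj i j → ∃ p : G.Walk (t i) (t j), ∀ v ∈ p.support, c v = i ∨ c v = j) :
    ∀ (I : Finset ι) (R : ι → Set V), (∀ i ∈ I, (G.induce (R i)).Connected) →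
      (∀ i ∈ I, t i ∈ R i) → (∀ i ∈ I, ∀ j ∈ I, i ≠ j → Disjoint (R i) (R j)) →
      (∀ i ∈ I, ∀ j ∈ I, i ≠ j → ∀ v ∈ R i, c v ≠ j) →
      ∃ B : ι → Set V, (∀ i ∈ I, (G.induce (B i)).Connected) ∧ (∀ i ∈ I, R i ⊆ B i) ∧
        (∀ i ∈ I, ∀ j ∈ I, i ≠ j → Disjoint (B i) (B j)) ∧
        (∀ i ∈ I, ∀ v ∈ B i, v ∉ R i → c v ∈ I) ∧
        (∀ i ∈ I, ∀ j ∈ I, H.Adj i j → ∃ u ∈ B i, ∃ v ∈ B j, G.Adj u v) := by
  intro I
  induction I using Finset.strongInduction with
  | H I ih =>
  intro R hR ht hd hc
  rcases I.eq_empty_or_nonempty with rfl | hI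
  · exact ⟨R, by simp, by simp, by simp, by simp, by simp⟩
  obtain ⟨w, hwI, hcase⟩ := leaf_block H hH I hI
  rcases hcase with ⟨u, hu⟩ | ⟨b, hbI, v, hvI, hwb, hwv, hbv, hNw, hNb⟩
  · -- w has at most the neighbor u
    by_cases huI : u ∈ I ∧ H.Adj w u
    · obtain ⟨huI, hwu⟩ := huI
      have huw : u ≠ w := hwu.ne'
      obtain ⟨p, hp⟩ := hw u w hwu.symm
      have htu : t u ∉ R w := fun h => Set.disjoint_left.mp (hd u huI w hwI huw) (ht u huI) h
      obtain ⟨Z, hZ1, hZ2, hZ3, z, hz, r, hr, hrs, hzr⟩ := initial G (R w) (t u) (t w) p (ht w hwI) htu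
      have hZc : ∀ z ∈ Z, c z = u ∨ c z = w := fun z hz => hp z (hZ3 z hz).1
      let R' : ι → Set V := fun i => if i = u then R u ∪ Z else R i
      have hR'u : R' u = R u ∪ Z := by simp [R']
      have hR'n : ∀ i, i ≠ u → R' i = R i := by intro i hi; simp [R', hi]
      obtain ⟨B, hB1, hB2, hB3, hB4, hB5⟩ := ih (I.erase w) (Finset.erase_ssubset hwI) R' (by
        intro i hi
        have hi' := Finset.mem_of_mem_erase hi
        by_cases hiu : i = u
        · subst hiu
          rw [hR'u]
          exact union_conn G (hR i huI) hZ2 ⟨t i, ht i huI, hZ1⟩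
        · rw [hR'n i hiu]; exact hR i hi') (by
        intro i hi
        have hi' := Finset.mem_of_mem_erase hi
        by_cases hiu : i = u
        · subst hiu
          rw [hR'u]; exact Or.inl (ht i huI)
        · rw [hR'n i hiu]; exact ht i hi') (by
        intro i hi j hj hij
        have hi' := Finset.mem_of_mem_erase hi
        have hj' := Finset.mem_of_mem_erase hj
        have hiw := Finset.ne_of_mem_erase hi
        have hjw := Finset.ne_of_mem_erase hj
        have hZR : ∀ j ∈ I, j ≠ u → j ≠ w → Disjoint Z (R j) := by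
          intro j hj hju hjw
          rw [Set.disjoint_left]
          intro a ha haR
          rcases hZc a ha with h | h
          · exact hc j hj u huI hju a haR h
          · exact hc j hj w hwI hjw a haR h
        by_cases hiu : i = u
        · subst hiu
          rw [hR'u, hR'n j hij.symm, Set.disjoint_union_left]
          exact ⟨hd i huI j hj' hij, hZR j hj' hij.symm hjw⟩
        · by_cases hju : j = u
          · subst hju
            rw [hR'u, hR'n i hij, Set.disjoint_union_right]
            exact ⟨hd i hi' j huI hij, (hZR i hi' hij hiw).symm⟩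
          · rw [hR'n i hiu, hR'n j hju]; exact hd i hi' j hj' hij) (by
        intro i hi j hj hij a ha
        have hi' := Finset.mem_of_mem_erase hi
        have hj' := Finset.mem_of_mem_erase hj
        have hjw := Finset.ne_of_mem_erase hj
        by_cases hiu : i = u
        · subst hiu
          rw [hR'u] at ha
          rcases ha with ha | ha
          · exact hc i huI j hj' hij a ha
          · rcases hZc a ha with h | h
            · rw [h]; exact hij
            · rw [h]; exact hjw.symm
        · rw [hR'n i hiu] at ha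
          exact hc i hi' j hj' hij a ha)
      have hR'w : ∀ i ∈ I.erase w, Disjoint (R' i) (R w) := by
        intro i hi
        have hi' := Finset.mem_of_mem_erase hi
        have hiw := Finset.ne_of_mem_erase hi
        by_cases hiu : i = u
        · subst hiu
          rw [hR'u, Set.disjoint_union_left]
          refine ⟨hd i huI w hwI hiw, ?_⟩
          rw [Set.disjoint_left]
          intro a ha
          exact (hZ3 a ha).2
        · rw [hR'n i hiu]; exact hd i hi' w hwI hiw
      have hBw : ∀ i ∈ I.erase w, Disjoint (B i) (R w) := by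
        intro i hi
        rw [Set.disjoint_left]
        intro a ha haR
        by_cases haR' : a ∈ R' i
        · exact Set.disjoint_left.mp (hR'w i hi) haR' haR
        · have h1 := hB4 i hi a ha haR'
          exact hc w hwI (c a) (Finset.mem_of_mem_erase h1) (Finset.ne_of_mem_erase h1).symm a haR rfl
      have hmemE : ∀ i ∈ I, i ≠ w → i ∈ I.erase w := fun i hi hiw => Finset.mem_erase.mpr ⟨hiw, hi⟩
      let B' : ι → Set V := fun i => if i = w then R w else B i
      have hB'w : B' w = R w := by simp [B']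
      have hB'n : ∀ i, i ≠ w → B' i = B i := by intro i hi; simp [B', hi]
      refine ⟨B', ?_, ?_, ?_, ?_, ?_⟩
      · intro i hi
        by_cases hiw : i = w
        · subst hiw; rw [hB'w]; exact hR i hwI
        · rw [hB'n i hiw]; exact hB1 i (hmemE i hi hiw)
      · intro i hi
        by_cases hiw : i = w
        · subst hiw; rw [hB'w]
        · rw [hB'n i hiw]
          intro a ha
          apply hB2 i (hmemE i hi hiw)
          by_cases hiu : i = u
          · subst hiu; rw [hR'u]; exact Or.inl ha
          · rw [hR'n i hiu]; exact ha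
      · intro i hi j hj hij
        by_cases hiw : i = w
        · subst hiw
          rw [hB'w, hB'n j hij.symm]
          exact (hBw j (hmemE j hj hij.symm)).symm
        · by_cases hjw : j = w
          · subst hjw
            rw [hB'w, hB'n i hij]
            exact hBw i (hmemE i hi hij)
          · rw [hB'n i hiw, hB'n j hjw]
            exact hB3 i (hmemE i hi hiw) j (hmemE j hj hjw) hij
      · intro i hi a ha haR
        by_cases hiw : i = w
        · subst hiw; rw [hB'w] at ha; exact absurd ha haR
        · rw [hB'n i hiw] at ha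
          by_cases haR' : a ∈ R' i
          · by_cases hiu : i = u
            · subst hiu
              rw [hR'u] at haR'
              rcases haR' with h | h
              · exact absurd h haR
              · rcases hZc a h with h | h
                · rw [h]; exact huI
                · rw [h]; exact hwI
            · rw [hR'n i hiu] at haR'; exact absurd haR' haR
          · exact Finset.mem_of_mem_erase (hB4 i (hmemE i hi hiw) a ha haR')
      · have hadj : ∃ a ∈ B' u, ∃ d ∈ B' w, G.Adj a d := by
          rw [hB'w, hB'n u huw]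
          refine ⟨z, hB2 u (hmemE u huI huw) ?_, r, hr, hzr⟩
          rw [hR'u]; exact Or.inr hz
        intro i hi j hj hij
        by_cases hiw : i = w
        · subst hiw
          have hju := hu j hj hij
          subst hju
          obtain ⟨a, ha, d, hd', had⟩ := hadj
          exact ⟨d, hd', a, ha, had.symm⟩
        · by_cases hjw : j = w
          · subst hjw
            have hiu := hu i hi hij.symm
            subst hiu
            exact hadj
          · rw [hB'n i hiw, hB'n j hjw]
            exact hB5 i (hmemE i hi hiw) j (hmemE j hj hjw) hij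
    · -- w has no neighbor in I
      have hno : ∀ x ∈ I, ¬ H.Adj w x := by
        intro x hx hwx
        have := hu x hx hwx
        subst this
        exact huI ⟨hx, hwx⟩
      obtain ⟨B, hB1, hB2, hB3, hB4, hB5⟩ := ih (I.erase w) (Finset.erase_ssubset hwI) R
        (fun i hi => hR i (Finset.mem_of_mem_erase hi))
        (fun i hi => ht i (Finset.mem_of_mem_erase hi))
        (fun i hi j hj => hd i (Finset.mem_of_mem_erase hi) j (Finset.mem_of_mem_erase hj))
        (fun i hi j hj => hc i (Finset.mem_of_mem_erase hi) j (Finset.mem_of_mem_erase hj))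
      have hBw : ∀ i ∈ I.erase w, Disjoint (B i) (R w) := by
        intro i hi
        rw [Set.disjoint_left]
        intro a ha haR
        by_cases haR' : a ∈ R i
        · exact Set.disjoint_left.mp (hd i (Finset.mem_of_mem_erase hi) w hwI
            (Finset.ne_of_mem_erase hi)) haR' haR
        · have h1 := hB4 i hi a ha haR'
          exact hc w hwI (c a) (Finset.mem_of_mem_erase h1) (Finset.ne_of_mem_erase h1).symm a haR rfl
      have hmemE : ∀ i ∈ I, i ≠ w → i ∈ I.erase w := fun i hi hiw => Finset.mem_erase.mpr ⟨hiw, hi⟩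
      let B' : ι → Set V := fun i => if i = w then R w else B i
      have hB'w : B' w = R w := by simp [B']
      have hB'n : ∀ i, i ≠ w → B' i = B i := by intro i hi; simp [B', hi]
      refine ⟨B', ?_, ?_, ?_, ?_, ?_⟩
      · intro i hi
        by_cases hiw : i = w
        · subst hiw; rw [hB'w]; exact hR i hwI
        · rw [hB'n i hiw]; exact hB1 i (hmemE i hi hiw)
      · intro i hi
        by_cases hiw : i = w
        · subst hiw; rw [hB'w]
        · rw [hB'n i hiw]; exact hB2 i (hmemE i hi hiw)
      · intro i hi j hj hij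
        by_cases hiw : i = w
        · subst hiw
          rw [hB'w, hB'n j hij.symm]
          exact (hBw j (hmemE j hj hij.symm)).symm
        · by_cases hjw : j = w
          · subst hjw
            rw [hB'w, hB'n i hij]
            exact hBw i (hmemE i hi hij)
          · rw [hB'n i hiw, hB'n j hjw]
            exact hB3 i (hmemE i hi hiw) j (hmemE j hj hjw) hij
      · intro i hi a ha haR
        by_cases hiw : i = w
        · subst hiw; rw [hB'w] at ha; exact absurd ha haR
        · rw [hB'n i hiw] at ha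
          exact Finset.mem_of_mem_erase (hB4 i (hmemE i hi hiw) a ha haR)
      · intro i hi j hj hij
        by_cases hiw : i = w
        · subst hiw; exact absurd hij (hno j hj)
        · by_cases hjw : j = w
          · subst hjw; exact absurd hij.symm (hno i hi)
          · rw [hB'n i hiw, hB'n j hjw]
            exact hB5 i (hmemE i hi hiw) j (hmemE j hj hjw) hij
  · -- a triangle w b v
    have hwne : w ≠ b := hwb.ne
    have hvw : v ≠ w := hwv.ne'
    have hvb : v ≠ b := hbv.ne'
    -- the path between R w and R b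
    obtain ⟨p0, hp0⟩ := hw w b hwb
    obtain ⟨x, y, P, hx, hy, hPW, hPp, hPA, hPB⟩ := short G (R w) (R b) {a | c a = w ∨ c a = b}
      ⟨t w, t b, p0, ht w hwI, ht b hbI, hp0⟩
    let Q : Set V := (R w ∪ R b) ∪ {a | a ∈ P.support}
    have hQ : ∀ j ∈ I, j ≠ w → j ≠ b → ∀ a ∈ Q, c a ≠ j := by
      rintro j hj hjw hjb a ((ha | ha) | ha)
      · exact hc w hwI j hj hjw.symm a ha
      · exact hc b hbI j hj hjb.symm a ha
      · rcases hPW a ha with h | h
        · rw [h]; exact hjw.symm
        · rw [h]; exact hjb.symm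
    have hQR : ∀ j ∈ I, j ≠ w → j ≠ b → Disjoint (R j) Q := by
      intro j hj hjw hjb
      rw [Set.disjoint_left]
      rintro a haj ((ha | ha) | ha)
      · exact Set.disjoint_left.mp (hd j hj w hwI hjw) haj ha
      · exact Set.disjoint_left.mp (hd j hj b hbI hjb) haj ha
      · rcases hPW a ha with h | h
        · exact hc j hj w hwI hjw a haj h
        · exact hc j hj b hbI hjb a haj h
    have htv : t v ∉ Q := fun h => Set.disjoint_left.mp (hQR v hvI hvw hvb) (ht v hvI) h
    -- the two initial segments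
    obtain ⟨p1, hp1⟩ := hw v w hwv.symm
    obtain ⟨Z1, hZ11, hZ12, hZ13, z1, hz1, r1, hr1, hrs1, hzr1⟩ := initial G Q (t v) (t w) p1
      (Or.inl (Or.inl (ht w hwI))) htv
    obtain ⟨p2, hp2⟩ := hw v b hbv.symm
    obtain ⟨Z2, hZ21, hZ22, hZ23, z2, hz2, r2, hr2, hrs2, hzr2⟩ := initial G Q (t v) (t b) p2
      (Or.inl (Or.inr (ht b hbI))) htv
    have hr1c : c r1 = w := by
      rcases hp1 r1 hrs1 with h | h
      · exact absurd h (hQ v hvI hvw hvb r1 hr1)
      · exact h
    have hr2c : c r2 = b := by
      rcases hp2 r2 hrs2 with h | h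
      · exact absurd h (hQ v hvI hvw hvb r2 hr2)
      · exact h
    -- where to cut P
    have hxR : ∀ a ∈ R w, c a ≠ b := hc w hwI b hbI hwne
    have hyR : ∀ a ∈ R b, c a ≠ w := hc b hbI w hwI hwne.symm
    obtain ⟨a1, ha1, ha1'⟩ : ∃ a1 ∈ P.support, (r1 ∈ R w ∧ a1 = x) ∨ (r1 ∉ R w ∧ a1 = r1) := by
      rcases hr1 with (h | h) | h
      · exact ⟨x, P.start_mem_support, Or.inl ⟨h, rfl⟩⟩
      · exact absurd hr1c (hyR r1 h)
      · by_cases h' : r1 ∈ R w
        · exact ⟨x, P.start_mem_support, Or.inl ⟨h', rfl⟩⟩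
        · exact ⟨r1, h, Or.inr ⟨h', rfl⟩⟩
    obtain ⟨a2, ha2, ha2'⟩ : ∃ a2 ∈ P.support, (r2 ∈ R b ∧ a2 = y) ∨ (r2 ∉ R b ∧ a2 = r2) := by
      rcases hr2 with (h | h) | h
      · exact absurd hr2c (hxR r2 h)
      · exact ⟨y, P.end_mem_support, Or.inl ⟨h, rfl⟩⟩
      · by_cases h' : r2 ∈ R b
        · exact ⟨y, P.end_mem_support, Or.inl ⟨h', rfl⟩⟩
        · exact ⟨r2, h, Or.inr ⟨h', rfl⟩⟩
    have hxb : x ∉ R b := fun h => Set.disjoint_left.mp (hd w hwI b hbI hwne) hx h
    have hyw : y ∉ R w := fun h => Set.disjoint_left.mp (hd w hwI b hbI hwne) h hy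
    have ha12 : a1 ≠ a2 := by
      rcases ha1' with ⟨h1, h2⟩ | ⟨h1, h2⟩ <;> rcases ha2' with ⟨h3, h4⟩ | ⟨h3, h4⟩
      · rw [h2, h4]; intro h; rw [h] at hx; exact hyw hx
      · rw [h2, h4]; intro h; rw [h] at hx; exact hxR r2 hx hr2c
      · rw [h2, h4]; intro h; rw [← h] at hy; exact hyR r1 hy hr1c
      · rw [h2, h4]; intro h; rw [h, hr2c] at hr1c; exact hwne hr1c.symm
    obtain ⟨X, Y, hxX, hyY, hXY, hPXY, hXc, hYc, hXYadj, hsplit⟩ := cut G x y P hPp a1 a2 ha1 ha2 ha12
    have hXs : ∀ a ∈ X, a ∈ P.support := fun a ha => (hPXY a).mpr (Or.inl ha)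
    have hYs : ∀ a ∈ Y, a ∈ P.support := fun a ha => (hPXY a).mpr (Or.inr ha)
    let A1 : Set V := R w ∪ X
    let A2 : Set V := R b ∪ Y
    have hA1c : (G.induce A1).Connected := union_conn G (hR w hwI) hXc ⟨x, hx, hxX⟩
    have hA2c : (G.induce A2).Connected := union_conn G (hR b hbI) hYc ⟨y, hy, hyY⟩
    have hA12 : Disjoint A1 A2 := by
      rw [Set.disjoint_left]
      rintro a (ha | ha) (ha' | ha')
      · exact Set.disjoint_left.mp (hd w hwI b hbI hwne) ha ha'
      · have := hPA a (hYs a ha') ha
        subst this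
        exact Set.disjoint_left.mp hXY hxX ha'
      · have := hPB a (hXs a ha) ha'
        subst this
        exact Set.disjoint_left.mp hXY ha hyY
      · exact Set.disjoint_left.mp hXY ha ha'
    have hA1Q : A1 ⊆ Q := by
      rintro a (ha | ha)
      · exact Or.inl (Or.inl ha)
      · exact Or.inr (hXs a ha)
    have hA2Q : A2 ⊆ Q := by
      rintro a (ha | ha)
      · exact Or.inl (Or.inr ha)
      · exact Or.inr (hYs a ha)
    -- v touches both parts
    have htouch : (∃ z ∈ Z1 ∪ Z2, ∃ a ∈ A1, G.Adj z a) ∧ (∃ z ∈ Z1 ∪ Z2, ∃ a ∈ A2, G.Adj z a) := by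
      rcases hsplit with ⟨h1, h2⟩ | ⟨h1, h2⟩
      · refine ⟨⟨z1, Or.inl hz1, r1, ?_, hzr1⟩, ⟨z2, Or.inr hz2, r2, ?_, hzr2⟩⟩
        · rcases ha1' with ⟨h3, h4⟩ | ⟨h3, h4⟩
          · exact Or.inl h3
          · rw [h4] at h1; exact Or.inr h1
        · rcases ha2' with ⟨h3, h4⟩ | ⟨h3, h4⟩
          · exact Or.inl h3
          · rw [h4] at h2; exact Or.inr h2
      · refine ⟨⟨z2, Or.inr hz2, r2, ?_, hzr2⟩, ⟨z1, Or.inl hz1, r1, ?_, hzr1⟩⟩
        · rcases ha2' with ⟨h3, h4⟩ | ⟨h3, h4⟩
          · rw [h4] at h1; exact absurd hyY (Set.disjoint_left.mp hXY h1)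
          · rw [h4] at h1; exact Or.inr h1
        · rcases ha1' with ⟨h3, h4⟩ | ⟨h3, h4⟩
          · rw [h4] at h2; exact absurd h2 (Set.disjoint_left.mp hXY hxX)
          · rw [h4] at h2; exact Or.inr h2
    have hZc : ∀ z ∈ Z1 ∪ Z2, c z = v ∨ c z = w ∨ c z = b := by
      rintro z (hz | hz)
      · rcases hp1 z (hZ13 z hz).1 with h | h
        · exact Or.inl h
        · exact Or.inr (Or.inl h)
      · rcases hp2 z (hZ23 z hz).1 with h | h
        · exact Or.inl h
        · exact Or.inr (Or.inr h)
    have hZQ : ∀ z ∈ Z1 ∪ Z2, z ∉ Q := by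
      rintro z (hz | hz)
      · exact (hZ13 z hz).2
      · exact (hZ23 z hz).2
    have hZcon : (G.induce (Z1 ∪ Z2)).Connected := union_conn G hZ12 hZ22 ⟨t v, hZ11, hZ21⟩
    let I' : Finset ι := (I.erase w).erase b
    have hI' : I' ⊂ I := Finset.ssubset_of_subset_of_ssubset (Finset.erase_subset _ _)
      (Finset.erase_ssubset hwI)
    have hmI' : ∀ i, i ∈ I' ↔ i ≠ b ∧ i ≠ w ∧ i ∈ I := by
      intro i; simp [I', Finset.mem_erase]
    let R' : ι → Set V := fun i => if i = v then R v ∪ (Z1 ∪ Z2) else R i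
    have hR'v : R' v = R v ∪ (Z1 ∪ Z2) := by simp [R']
    have hR'n : ∀ i, i ≠ v → R' i = R i := by intro i hi; simp [R', hi]
    have hZR : ∀ j ∈ I, j ≠ v → j ≠ w → j ≠ b → Disjoint (Z1 ∪ Z2) (R j) := by
      intro j hj hjv hjw hjb
      rw [Set.disjoint_left]
      intro a ha haR
      rcases hZc a ha with h | h | h
      · exact hc j hj v hvI hjv a haR h
      · exact hc j hj w hwI hjw a haR h
      · exact hc j hj b hbI hjb a haR h
    obtain ⟨B, hB1, hB2, hB3, hB4, hB5⟩ := ih I' hI' R' (by
      intro i hi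
      obtain ⟨hib, hiw, hi'⟩ := (hmI' i).mp hi
      by_cases hiv : i = v
      · subst hiv
        rw [hR'v]
        exact union_conn G (hR i hvI) hZcon ⟨t i, ht i hvI, Or.inl hZ11⟩
      · rw [hR'n i hiv]; exact hR i hi') (by
      intro i hi
      obtain ⟨hib, hiw, hi'⟩ := (hmI' i).mp hi
      by_cases hiv : i = v
      · subst hiv; rw [hR'v]; exact Or.inl (ht i hvI)
      · rw [hR'n i hiv]; exact ht i hi') (by
      intro i hi j hj hij
      obtain ⟨hib, hiw, hi'⟩ := (hmI' i).mp hi
      obtain ⟨hjb, hjw, hj'⟩ := (hmI' j).mp hj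
      by_cases hiv : i = v
      · subst hiv
        rw [hR'v, hR'n j hij.symm, Set.disjoint_union_left]
        exact ⟨hd i hvI j hj' hij, hZR j hj' hij.symm hjw hjb⟩
      · by_cases hjv : j = v
        · subst hjv
          rw [hR'v, hR'n i hij, Set.disjoint_union_right]
          exact ⟨hd i hi' j hvI hij, (hZR i hi' hij hiw hib).symm⟩
        · rw [hR'n i hiv, hR'n j hjv]; exact hd i hi' j hj' hij) (by
      intro i hi j hj hij a ha
      obtain ⟨hib, hiw, hi'⟩ := (hmI' i).mp hi
      obtain ⟨hjb, hjw, hj'⟩ := (hmI' j).mp hj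
      by_cases hiv : i = v
      · subst hiv
        rw [hR'v] at ha
        rcases ha with ha | ha
        · exact hc i hvI j hj' hij a ha
        · rcases hZc a ha with h | h | h
          · rw [h]; exact hij
          · rw [h]; exact hjw.symm
          · rw [h]; exact hjb.symm
      · rw [hR'n i hiv] at ha
        exact hc i hi' j hj' hij a ha)
    have hR'Q : ∀ i ∈ I', Disjoint (R' i) Q := by
      intro i hi
      obtain ⟨hib, hiw, hi'⟩ := (hmI' i).mp hi
      by_cases hiv : i = v
      · subst hiv
        rw [hR'v, Set.disjoint_union_left]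
        refine ⟨hQR i hvI hiw hib, ?_⟩
        rw [Set.disjoint_left]
        exact hZQ
      · rw [hR'n i hiv]; exact hQR i hi' hiw hib
    have hBQ : ∀ i ∈ I', Disjoint (B i) Q := by
      intro i hi
      rw [Set.disjoint_left]
      intro a ha haQ
      by_cases haR' : a ∈ R' i
      · exact Set.disjoint_left.mp (hR'Q i hi) haR' haQ
      · obtain ⟨h1, h2, h3⟩ := (hmI' _).mp (hB4 i hi a ha haR')
        exact hQ (c a) h3 h2 h1 a haQ rfl
    have hmemE : ∀ i ∈ I, i ≠ w → i ≠ b → i ∈ I' := fun i hi h1 h2 => (hmI' i).mpr ⟨h2, h1, hi⟩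
    let B' : ι → Set V := fun i => if i = w then A1 else if i = b then A2 else B i
    have hB'w : B' w = A1 := by simp [B']
    have hB'b : B' b = A2 := by simp [B', hwne.symm]
    have hB'n : ∀ i, i ≠ w → i ≠ b → B' i = B i := by intro i h1 h2; simp [B', h1, h2]
    have hvI' : v ∈ I' := hmemE v hvI hvw hvb
    have hZB : Z1 ∪ Z2 ⊆ B v := by
      intro a ha
      apply hB2 v hvI'
      rw [hR'v]; exact Or.inr ha
    refine ⟨B', ?_, ?_, ?_, ?_, ?_⟩
    · intro i hi
      by_cases hiw : i = w
      · subst hiw; rw [hB'w]; exact hA1c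
      · by_cases hib : i = b
        · subst hib; rw [hB'b]; exact hA2c
        · rw [hB'n i hiw hib]; exact hB1 i (hmemE i hi hiw hib)
    · intro i hi
      by_cases hiw : i = w
      · subst hiw; rw [hB'w]; exact Set.subset_union_left
      · by_cases hib : i = b
        · subst hib; rw [hB'b]; exact Set.subset_union_left
        · rw [hB'n i hiw hib]
          intro a ha
          apply hB2 i (hmemE i hi hiw hib)
          by_cases hiv : i = v
          · subst hiv; rw [hR'v]; exact Or.inl ha
          · rw [hR'n i hiv]; exact ha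
    · have hBA : ∀ i ∈ I', Disjoint (B i) A1 ∧ Disjoint (B i) A2 := fun i hi =>
        ⟨(hBQ i hi).mono_right hA1Q, (hBQ i hi).mono_right hA2Q⟩
      intro i hi j hj hij
      by_cases hiw : i = w
      · subst hiw
        rw [hB'w]
        by_cases hjb : j = b
        · subst hjb; rw [hB'b]; exact hA12
        · rw [hB'n j hij.symm hjb]; exact (hBA j (hmemE j hj hij.symm hjb)).1.symm
      · by_cases hib : i = b
        · subst hib
          rw [hB'b]
          by_cases hjw : j = w
          · subst hjw; rw [hB'w]; exact hA12.symm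
          · rw [hB'n j hjw hij.symm]; exact (hBA j (hmemE j hj hjw hij.symm)).2.symm
        · rw [hB'n i hiw hib]
          by_cases hjw : j = w
          · subst hjw; rw [hB'w]; exact (hBA i (hmemE i hi hiw hib)).1
          · by_cases hjb : j = b
            · subst hjb; rw [hB'b]; exact (hBA i (hmemE i hi hiw hib)).2
            · rw [hB'n j hjw hjb]
              exact hB3 i (hmemE i hi hiw hib) j (hmemE j hj hjw hjb) hij
    · intro i hi a ha haR
      by_cases hiw : i = w
      · subst hiw
        rw [hB'w] at ha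
        rcases ha with ha | ha
        · exact absurd ha haR
        · rcases hPW a (hXs a ha) with h | h
          · rw [h]; exact hwI
          · rw [h]; exact hbI
      · by_cases hib : i = b
        · subst hib
          rw [hB'b] at ha
          rcases ha with ha | ha
          · exact absurd ha haR
          · rcases hPW a (hYs a ha) with h | h
            · rw [h]; exact hwI
            · rw [h]; exact hbI
        · rw [hB'n i hiw hib] at ha
          by_cases haR' : a ∈ R' i
          · by_cases hiv : i = v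
            · subst hiv
              rw [hR'v] at haR'
              rcases haR' with h | h
              · exact absurd h haR
              · rcases hZc a h with h | h | h
                · rw [h]; exact hvI
                · rw [h]; exact hwI
                · rw [h]; exact hbI
            · rw [hR'n i hiv] at haR'; exact absurd haR' haR
          · exact ((hmI' _).mp (hB4 i (hmemE i hi hiw hib) a ha haR')).2.2
    · have e1 : ∃ a ∈ B' v, ∃ d ∈ B' w, G.Adj a d := by
        rw [hB'w, hB'n v hvw hvb]
        obtain ⟨z, hz, a, ha, hza⟩ := htouch.1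
        exact ⟨z, hZB hz, a, ha, hza⟩
      have e2 : ∃ a ∈ B' v, ∃ d ∈ B' b, G.Adj a d := by
        rw [hB'b, hB'n v hvw hvb]
        obtain ⟨z, hz, a, ha, hza⟩ := htouch.2
        exact ⟨z, hZB hz, a, ha, hza⟩
      have e3 : ∃ a ∈ B' w, ∃ d ∈ B' b, G.Adj a d := by
        rw [hB'b, hB'w]
        obtain ⟨a, ha, d, hd', had⟩ := hXYadj
        exact ⟨a, Or.inr ha, d, Or.inr hd', had⟩
      have hsymm : ∀ i j, (∃ a ∈ B' i, ∃ d ∈ B' j, G.Adj a d) → ∃ a ∈ B' j, ∃ d ∈ B' i, G.Adj a d := by
        rintro i j ⟨a, ha, d, hd', had⟩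
        exact ⟨d, hd', a, ha, had.symm⟩
      intro i hi j hj hij
      by_cases hiw : i = w
      · subst hiw
        rcases hNw j hj hij with rfl | rfl
        · exact e3
        · exact hsymm _ _ e1
      · by_cases hib : i = b
        · subst hib
          rcases hNb j hj hij with rfl | rfl
          · exact hsymm _ _ e3
          · exact hsymm _ _ e2
        · by_cases hjw : j = w
          · subst hjw
            rcases hNw i hi hij.symm with h | h
            · exact absurd h hib
            · subst h; exact e1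
          · by_cases hjb : j = b
            · subst hjb
              rcases hNb i hi hij.symm with h | h
              · exact absurd h hiw
              · subst h; exact e2
            · rw [hB'n i hiw hib, hB'n j hjw hjb]
              exact hB5 i (hmemE i hi hiw hib) j (hmemE j hj hjw hjb) hij

end Pool.Agent.Helper479Cactus
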